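import Mathlib

set_option autoImplicit false

namespace Pool.Agent.Results.MP_f17d28_nt.Orbit

def f (k : ℕ) (d : ℚ) : Option ℚ → Option ℚ
  | none => some d
  | some x => if x + d = 0 then none else some ((d * x + k) / (x + d))

noncomputable def c (ξ : ℝ) (n : ℕ) : ℤ := ⌊(fun x : ℝ => (Int.fract x)⁻¹)^[n] ξ⌋

lemma step (s : ℝ) (hs : s * s = 45) (h1 : 6.7 < s) (h2 : s < 6.71) (a b e a' b' : ℤ)
    (hb : 0 < b) (hb' : 0 < b') (l : (e * b - a : ℝ) ≤ 6.7) (u : (6.71 : ℝ) ≤ (e + 1) * b - a)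
    (ha : a' = e * b - a) (hh : b * b' = 45 - a' * a') :
    ⌊(a + s) / b⌋ = e ∧ (Int.fract ((a + s) / b))⁻¹ = (a' + s) / b' := by
  have hb0 : (0 : ℝ) < b := by exact_mod_cast hb
  have hb1 : (0 : ℝ) < b' := by exact_mod_cast hb'
  have fl : ⌊(a + s) / b⌋ = e := by
    rw [Int.floor_eq_iff, le_div_iff₀ hb0, div_lt_iff₀ hb0]
    constructor <;> linarith
  refine ⟨fl, ?_⟩
  have ha' : (a' : ℝ) = e * b - a := by exact_mod_cast ha
  have hh' : (b : ℝ) * b' = 45 - a' * a' := by exact_mod_cast hh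
  apply inv_eq_of_mul_eq_one_right
  rw [Int.fract, fl]
  field_simp
  linear_combination hs - hh' - (a' + s) * (-ha')

theorem result :
    ∃ (k : ℕ) (d x₀ : ℚ) (L i j : ℕ), 0 < k ∧ ¬ IsSquare k ∧ 0 < d ∧
      (∃ R : ℤ, 4 * d ^ 2 / (k - d ^ 2) = R) ∧
      (∀ n : ℕ, (f k d)^[n] none ≠ some x₀ ∧ (f k d)^[n] (some x₀) ≠ none) ∧
      IsLeast {m : ℕ | 1 ≤ m ∧ ∀ n : ℕ, 1 ≤ n → c √k (n + m) = c √k n} L ∧
      1 ≤ i ∧ 1 ≤ j ∧ ¬ i ≡ j [MOD L] ∧
      (∃ n : ℕ, (f k d)^[n] (some x₀) = some (Real.convergent √k (i - 1))) ∧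
      (∃ n : ℕ, (f k d)^[n] (some x₀) = some (Real.convergent √k (j - 1))) := by
  obtain ⟨s, hs0⟩ : ∃ s : ℝ, s = √(45 : ℕ) := ⟨_, rfl⟩
  have hs : s * s = 45 := by
    rw [hs0]
    exact_mod_cast Real.mul_self_sqrt (show (0 : ℝ) ≤ (45 : ℕ) by positivity)
  have hp : 0 ≤ s := hs0 ▸ Real.sqrt_nonneg _
  have h1 : 6.7 < s := by nlinarith
  have h2 : s < 6.71 := by nlinarith
  obtain ⟨f0, g0⟩ := step s hs h1 h2 0 1 6 6 9 (by norm_num) (by norm_num) (by norm_num)
    (by norm_num) (by norm_num) (by norm_num)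
  obtain ⟨f1, g1⟩ := step s hs h1 h2 6 9 1 3 4 (by norm_num) (by norm_num) (by norm_num)
    (by norm_num) (by norm_num) (by norm_num)
  obtain ⟨f2, g2⟩ := step s hs h1 h2 3 4 2 5 5 (by norm_num) (by norm_num) (by norm_num)
    (by norm_num) (by norm_num) (by norm_num)
  obtain ⟨f3, g3⟩ := step s hs h1 h2 5 5 2 5 4 (by norm_num) (by norm_num) (by norm_num)
    (by norm_num) (by norm_num) (by norm_num)
  obtain ⟨f4, g4⟩ := step s hs h1 h2 5 4 2 3 9 (by norm_num) (by norm_num) (by norm_num)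
    (by norm_num) (by norm_num) (by norm_num)
  obtain ⟨f5, g5⟩ := step s hs h1 h2 3 9 1 6 1 (by norm_num) (by norm_num) (by norm_num)
    (by norm_num) (by norm_num) (by norm_num)
  obtain ⟨f6, g6⟩ := step s hs h1 h2 6 1 12 6 9 (by norm_num) (by norm_num) (by norm_num)
    (by norm_num) (by norm_num) (by norm_num)
  have e0 : (((0 : ℤ) : ℝ) + s) / (1 : ℤ) = s := by simp
  rw [e0] at f0 g0
  have neg : ∀ n : ℕ, ∃ x : ℚ, (f 45 15)^[n] (some 6) = some x ∧ x ^ 2 < 45 := by
    intro n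
    induction n with
    | zero => exact ⟨6, rfl, by norm_num⟩
    | succ n ih =>
      obtain ⟨x, hx, hx2⟩ := ih
      have : 0 < x + 15 := by nlinarith
      refine ⟨(15 * x + (45 : ℕ)) / (x + 15), ?_, ?_⟩
      · rw [Function.iterate_succ_apply', hx, f, if_neg this.ne']
      · rw [div_pow, div_lt_iff₀ (by positivity)]
        push_cast
        nlinarith
  have pos : ∀ n : ℕ, ∀ x : ℚ, (f 45 15)^[n] none = some x → 45 < x ^ 2 := by
    intro n
    induction n with
    | zero => intro x hx; simp at hx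
    | succ n ih =>
      intro x hx
      rw [Function.iterate_succ_apply'] at hx
      rcases h : (f 45 15)^[n] none with _ | y
      · rw [h, f] at hx
        obtain rfl := Option.some.inj hx
        norm_num
      · have := ih y h
        rw [h, f] at hx
        split_ifs at hx with hy
        obtain rfl := Option.some.inj hx
        rw [div_pow, lt_div_iff₀ (by positivity)]
        push_cast
        nlinarith
  refine ⟨45, 15, 6, 6, 1, 3, by norm_num, by decide +kernel, by norm_num, ⟨-5, by norm_num⟩,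
    fun n => ⟨fun h => absurd (pos n 6 h) (by norm_num), fun h => ?_⟩, ?_, by norm_num,
    by norm_num, by decide, ⟨0, ?_⟩, ⟨3, ?_⟩⟩
  · obtain ⟨x, hx, -⟩ := neg n
    simp [h] at hx
  · rw [← hs0]
    refine ⟨⟨by norm_num, fun n hn => ?_⟩, fun m hm => ?_⟩
    · obtain ⟨n, rfl⟩ := Nat.exists_eq_add_of_le' hn
      have : (fun x : ℝ => (Int.fract x)⁻¹)^[1 + 6] s = (fun x : ℝ => (Int.fract x)⁻¹)^[1] s := by
        simp only [Function.iterate_succ_apply', Function.iterate_zero_apply, g0, g1, g2, g3, g4,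
          g5, g6]
      rw [c, c, add_assoc, Function.iterate_add_apply, this, ← Function.iterate_add_apply]
    · obtain ⟨m1, hm⟩ := hm
      by_contra hc
      have a1 := hm 1 le_rfl
      have a2 := hm 2 (by norm_num)
      have : m < 6 := by omega
      interval_cases m <;>
        simp only [c, Function.iterate_succ_apply', Function.iterate_zero_apply, g0, g1, g2, g3,
          g4, g5, g6, f1, f2, f3, f4, f5, f6] at a1 a2 <;> omega
  · rw [← hs0]
    simp [f0]
  · rw [← hs0]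
    simp only [Nat.add_one_sub_one, Real.convergent_succ, Real.convergent_zero, g0, g1, f0, f1,
      f2]
    norm_num [f]

end Pool.Agent.Results.MP_f17d28_nt.Orbit
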